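import Mathlib

/-! EA / Values (helper35).

The family `D_m(u,d) = det_{i,j<m} [ binom(u+i+j,i) * 2 cos(pi (i-j+d)/6) ]`, `d = 0,1,2,3`
(written `a, b, c, e`), satisfies the Desnanot-Jacobi identities `dj0` to `dj3` below.  From these
identities alone we derive, by one induction on `m` in which every step is a rational identity,

* positivity of `a m u`, `b m u`, `c m u` for all `m`, `u`;
* the product formulas in recursive form:
  `a (m+1) u * a (m-1) (u+2) = q_m(u) * a m (u+2) * a m u`, where with `U = u + 1`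
  `q_m = (2U+3m)/(U+3m)` for even `m` and
  `q_m = (U+m)(U+3m-1)(U+3m+1)/(m(2U+3m-1)(2U+3m+1))` for odd `m`.
-/

namespace EAV

/-- The abstract family. -/
structure DJF (a b c e : ℕ → ℕ → ℝ) : Prop where
  a0 : ∀ u, a 0 u = 1
  b0 : ∀ u, b 0 u = 1
  c0 : ∀ u, c 0 u = 1
  e0 : ∀ u, e 0 u = 1
  a1 : ∀ u, a 1 u = 2
  b1 : ∀ u, b 1 u = Real.sqrt 3
  c1 : ∀ u, c 1 u = 1
  e_odd : ∀ m u, e (2 * m + 1) u = 0
  dj0 : ∀ m u : ℕ, ((m : ℝ) + 1) * a (m + 2) u * a m (u + 2)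
    = ((u : ℝ) + m + 2) * a (m + 1) (u + 2) * a (m + 1) u - ((u : ℝ) + 1) * b (m + 1) (u + 1) ^ 2
  dj1 : ∀ m u : ℕ, ((m : ℝ) + 1) * b (m + 2) u * b m (u + 2)
    = ((u : ℝ) + m + 2) * b (m + 1) (u + 2) * b (m + 1) u
      - ((u : ℝ) + 1) * (c (m + 1) (u + 1) * a (m + 1) (u + 1))
  dj2 : ∀ m u : ℕ, ((m : ℝ) + 1) * c (m + 2) u * c m (u + 2)
    = ((u : ℝ) + m + 2) * c (m + 1) (u + 2) * c (m + 1) u
      - ((u : ℝ) + 1) * (e (m + 1) (u + 1) * b (m + 1) (u + 1))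
  dj3 : ∀ m u : ℕ, ((m : ℝ) + 1) * e (m + 2) u * e m (u + 2)
    = ((u : ℝ) + m + 2) * e (m + 1) (u + 2) * e (m + 1) u
      - (-1) ^ (m + 1) * ((u : ℝ) + 1) * c (m + 1) (u + 1) ^ 2

/-! ### Rational functions (arguments: `M` real level, `U = u + 1`) -/

noncomputable def qae (M U : ℝ) : ℝ := (2 * U + 3 * M) / (U + 3 * M)
noncomputable def qao (M U : ℝ) : ℝ :=
  (U + M) * (U + 3 * M - 1) * (U + 3 * M + 1) / (M * (2 * U + 3 * M - 1) * (2 * U + 3 * M + 1))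
noncomputable def qbe (M U : ℝ) : ℝ := 3 * (U + M) / (2 * U + 3 * M)
noncomputable def qbo (M U : ℝ) : ℝ := (U + 3 * M) / (3 * M)
noncomputable def qce (M U : ℝ) : ℝ := (U + 3 * M) / (2 * U + 3 * M)
noncomputable def qco (M U : ℝ) : ℝ := (U + M) / M

noncomputable def X0e (M U : ℝ) : ℝ := (U + 2 * M) / (U + 3 * M)
noncomputable def X0o (M U : ℝ) : ℝ :=
  3 * (U + M) * (U + 2 * M) / ((2 * U + 3 * M - 1) * (2 * U + 3 * M + 1))
noncomputable def X1e (M U : ℝ) : ℝ := 2 * (U + M) / (2 * U + 3 * M)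
noncomputable def X1o (_M _U : ℝ) : ℝ := 2 / 3
noncomputable def X2e (M U : ℝ) : ℝ := 2 * (U + 2 * M) / (2 * U + 3 * M)
noncomputable def Ze (M U : ℝ) : ℝ :=
  4 * (U + M + 1) * (U + 2 * M) * (U + 2 * M + 2) / ((U + 1) * (2 * U + 3 * M) * (2 * U + 3 * M + 4))
noncomputable def Zo (M U : ℝ) : ℝ :=
  12 * (U + M) * (U + M + 2) * (U + 2 * M) * (U + 2 * M + 2)
    / ((U + 1) * (2 * U + 3 * M + 1) * (2 * U + 3 * M + 3) * (U + 3 * M + 1))

/-! ### The rational identities -/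

theorem I0e {M U : ℝ} (hM : 1 ≤ M) (hU : 1 ≤ U) :
    qbo M (U + 1) * qbo M (U + 1) * X0o M U * X0o M (U + 2)
      = X0e (M + 1) U * (X0e (M - 1) (U + 2) * qao M (U + 2) * qao M U) := by
  have p1 : 0 < M := by linarith
  have p2 : 0 < 2 * U + 3 * M - 1 := by linarith
  have p3 : 0 < 2 * U + 3 * M + 1 := by linarith
  have p4 : 0 < 2 * (U + 2) + 3 * M - 1 := by linarith
  have p5 : 0 < 2 * (U + 2) + 3 * M + 1 := by linarith
  have p6 : 0 < U + 3 * (M + 1) := by linarith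
  have p7 : 0 < U + 2 + 3 * (M - 1) := by linarith
  unfold qbo X0o X0e qao
  rw [div_mul_div_comm, div_mul_div_comm, div_mul_div_comm, div_mul_div_comm, div_mul_div_comm,
    div_mul_div_comm, div_eq_div_iff (by positivity) (by positivity)]
  ring

theorem I1e {M U : ℝ} (hM : 1 ≤ M) (hU : 1 ≤ U) :
    qco M (U + 1) * qao M (U + 1) * X1o M U * X1o M (U + 2)
      = X1e (M + 1) U * (X1e (M - 1) (U + 2) * qbo M (U + 2) * qbo M U) := by
  have p1 : 0 < M := by linarith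
  have p2 : 0 < 2 * (U + 1) + 3 * M - 1 := by linarith
  have p3 : 0 < 2 * (U + 1) + 3 * M + 1 := by linarith
  have p4 : 0 < 2 * U + 3 * (M + 1) := by linarith
  have p5 : 0 < 2 * (U + 2) + 3 * (M - 1) := by linarith
  unfold qbo X1o X1e qao qco
  rw [div_mul_div_comm, div_mul_div_comm, div_mul_div_comm, div_mul_div_comm, div_mul_div_comm,
    div_mul_div_comm, div_eq_div_iff (by positivity) (by positivity)]
  ring

theorem Ize {M U : ℝ} (hM : 1 ≤ M) (hU : 1 ≤ U) :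
    qbo M (U + 1) * qbo M (U + 3) * Zo M U * Zo M (U + 2)
      = Ze (M + 1) U * (Ze (M - 1) (U + 2) * qco M (U + 4) * qco M U) := by
  have p1 : 0 < M := by linarith
  have p2 : 0 < U + 1 := by linarith
  have p3 : 0 < 2 * U + 3 * M + 1 := by linarith
  have p4 : 0 < 2 * U + 3 * M + 3 := by linarith
  have p5 : 0 < U + 3 * M + 1 := by linarith
  have p6 : 0 < U + 2 + 1 := by linarith
  have p7 : 0 < 2 * (U + 2) + 3 * M + 1 := by linarith
  have p8 : 0 < 2 * (U + 2) + 3 * M + 3 := by linarith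
  have p9 : 0 < U + 2 + 3 * M + 1 := by linarith
  have r1 : 0 < 2 * U + 3 * (M + 1) := by linarith
  have r2 : 0 < 2 * U + 3 * (M + 1) + 4 := by linarith
  have r3 : 0 < 2 * (U + 2) + 3 * (M - 1) := by linarith
  have r4 : 0 < 2 * (U + 2) + 3 * (M - 1) + 4 := by linarith
  unfold qbo Zo Ze qco
  rw [div_mul_div_comm, div_mul_div_comm, div_mul_div_comm, div_mul_div_comm, div_mul_div_comm,
    div_mul_div_comm, div_eq_div_iff (by positivity) (by positivity)]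
  ring

theorem I0o {M U : ℝ} (hM : 1 ≤ M) (hU : 1 ≤ U) :
    qbe M (U + 1) * qbe M (U + 1) * X0e M U * X0e M (U + 2)
      = X0o (M + 1) U * (X0o (M - 1) (U + 2) * qae M (U + 2) * qae M U) := by
  have p1 : 0 < 2 * (U + 1) + 3 * M := by linarith
  have p2 : 0 < U + 3 * M := by linarith
  have p3 : 0 < U + 2 + 3 * M := by linarith
  have p4 : 0 < 2 * U + 3 * (M + 1) - 1 := by linarith
  have p5 : 0 < 2 * U + 3 * (M + 1) + 1 := by linarith
  have p6 : 0 < 2 * (U + 2) + 3 * (M - 1) - 1 := by linarith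
  have p7 : 0 < 2 * (U + 2) + 3 * (M - 1) + 1 := by linarith
  unfold qbe X0e X0o qae
  rw [div_mul_div_comm, div_mul_div_comm, div_mul_div_comm, div_mul_div_comm, div_mul_div_comm,
    div_mul_div_comm, div_eq_div_iff (by positivity) (by positivity)]
  ring

theorem I1o {M U : ℝ} (hM : 1 ≤ M) (hU : 1 ≤ U) :
    qce M (U + 1) * qae M (U + 1) * X1e M U * X1e M (U + 2)
      = X1o (M + 1) U * (X1o (M - 1) (U + 2) * qbe M (U + 2) * qbe M U) := by
  have p1 : 0 < 2 * (U + 1) + 3 * M := by linarith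
  have p2 : 0 < U + 1 + 3 * M := by linarith
  have p3 : 0 < 2 * U + 3 * M := by linarith
  have p4 : 0 < 2 * (U + 2) + 3 * M := by linarith
  unfold qce qae X1e X1o qbe
  rw [div_mul_div_comm, div_mul_div_comm, div_mul_div_comm, div_mul_div_comm, div_mul_div_comm,
    div_mul_div_comm, div_eq_div_iff (by positivity) (by positivity)]
  ring

theorem Izo {M U : ℝ} (hM : 1 ≤ M) (hU : 1 ≤ U) :
    qbe M (U + 1) * qbe M (U + 3) * Ze M U * Ze M (U + 2)
      = Zo (M + 1) U * (Zo (M - 1) (U + 2) * qce M (U + 4) * qce M U) := by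
  have p1 : 0 < 2 * (U + 1) + 3 * M := by linarith
  have p2 : 0 < 2 * (U + 3) + 3 * M := by linarith
  have p3 : 0 < U + 1 := by linarith
  have p4 : 0 < 2 * U + 3 * M := by linarith
  have p5 : 0 < 2 * U + 3 * M + 4 := by linarith
  have p6 : 0 < U + 2 + 1 := by linarith
  have p7 : 0 < 2 * (U + 2) + 3 * M := by linarith
  have p8 : 0 < 2 * (U + 2) + 3 * M + 4 := by linarith
  have r1 : 0 < 2 * U + 3 * (M + 1) + 1 := by linarith
  have r2 : 0 < 2 * U + 3 * (M + 1) + 3 := by linarith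
  have r3 : 0 < U + 3 * (M + 1) + 1 := by linarith
  have r4 : 0 < 2 * (U + 2) + 3 * (M - 1) + 1 := by linarith
  have r5 : 0 < 2 * (U + 2) + 3 * (M - 1) + 3 := by linarith
  have r6 : 0 < U + 2 + 3 * (M - 1) + 1 := by linarith
  have r7 : 0 < 2 * (U + 4) + 3 * M := by linarith
  unfold qbe Ze Zo qce
  rw [div_mul_div_comm, div_mul_div_comm, div_mul_div_comm, div_mul_div_comm, div_mul_div_comm,
    div_mul_div_comm, div_eq_div_iff (by positivity) (by positivity)]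
  ring

theorem I2e {M U : ℝ} (hM : 1 ≤ M) (hU : 1 ≤ U) :
    (U + 1) * qbo M (U + 1) * Zo M U
      = X2e (M + 1) U * (M * X2e (M - 1) (U + 2) * qco M (U + 2) * qco M U) := by
  have p1 : 0 < M := by linarith
  have p3 : 0 < U + 1 := by linarith
  have r1 : 0 < 2 * U + 3 * M + 1 := by linarith
  have r2 : 0 < 2 * U + 3 * M + 3 := by linarith
  have r3 : 0 < U + 3 * M + 1 := by linarith
  have r4 : 0 < 2 * U + 3 * (M + 1) := by linarith
  have r5 : 0 < 2 * (U + 2) + 3 * (M - 1) := by linarith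
  unfold qbo Zo X2e qco
  simp only [mul_div_assoc', div_mul_eq_mul_div, div_div]
  rw [div_eq_div_iff (by positivity) (by positivity)]
  ring

/-- State at an even level. -/
structure Ev (a b c e : ℕ → ℕ → ℝ) (m : ℕ) : Prop where
  pa : ∀ u, 0 < a m u
  pb : ∀ u, 0 < b m u
  pc : ∀ u, 0 < c m u
  pe : ∀ u, 0 < e m u
  x0 : ∀ u : ℕ, b m (u + 1) * b m (u + 1) = X0e m (u + 1) * a m (u + 2) * a m u
  x1 : ∀ u : ℕ, c m (u + 1) * a m (u + 1) = X1e m (u + 1) * b m (u + 2) * b m u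
  x2 : ∀ u : ℕ, e m (u + 1) * b m (u + 1) = X2e m (u + 1) * c m (u + 2) * c m u
  z : ∀ u : ℕ, b m (u + 1) * b m (u + 3) = Ze m (u + 1) * c m (u + 4) * c m u

/-- State at an odd level. -/
structure Od (a b c e : ℕ → ℕ → ℝ) (m : ℕ) : Prop where
  pa : ∀ u, 0 < a m u
  pb : ∀ u, 0 < b m u
  pc : ∀ u, 0 < c m u
  e0 : ∀ u, e m u = 0
  x0 : ∀ u : ℕ, b m (u + 1) * b m (u + 1) = X0o m (u + 1) * a m (u + 2) * a m u
  x1 : ∀ u : ℕ, c m (u + 1) * a m (u + 1) = X1o m (u + 1) * b m (u + 2) * b m u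
  z : ∀ u : ℕ, b m (u + 1) * b m (u + 3) = Zo m (u + 1) * c m (u + 4) * c m u

theorem cross_step {f0 f1 f2 f3 g0 g1 g2 g3 h0 h1 h2 h3 k0 k1 k2 k3 qf qg qh qk X X' X'' Y : ℝ}
    (h3n : h3 ≠ 0) (k3n : k3 ≠ 0) (hqh : qh ≠ 0) (hqk : qk ≠ 0) (hX2 : X'' ≠ 0)
    (hf : f0 * f3 = qf * f1 * f2) (hg : g0 * g3 = qg * g1 * g2)
    (hh : h0 * h3 = qh * h1 * h2) (hk : k0 * k3 = qk * k1 * k2)
    (hX : f1 * g1 = X * h1 * k1) (hX' : f2 * g2 = X' * h2 * k2) (hX'' : f3 * g3 = X'' * h3 * k3)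
    (hY : qf * qg * X * X' = Y * (X'' * qh * qk)) :
    f0 * g0 = Y * h0 * k0 := by
  have hne : h3 * k3 * (X'' * qh * qk) ≠ 0 := by positivity
  apply mul_right_cancel₀ hne
  have e1 : (f0 * f3) * (g0 * g3) = (qf * f1 * f2) * (qg * g1 * g2) := by rw [hf, hg]
  have e2 : (h0 * h3) * (k0 * k3) = (qh * h1 * h2) * (qk * k1 * k2) := by rw [hh, hk]
  calc f0 * g0 * (h3 * k3 * (X'' * qh * qk))
      = (f0 * g0 * (X'' * h3 * k3)) * (qh * qk) := by ring
    _ = ((f0 * f3) * (g0 * g3)) * (qh * qk) := by rw [← hX'']; ring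
    _ = (qf * qg) * ((f1 * g1) * (f2 * g2)) * (qh * qk) := by rw [e1]; ring
    _ = (qf * qg * X * X') * ((qh * h1 * h2) * (qk * k1 * k2)) := by rw [hX, hX']; ring
    _ = (qf * qg * X * X') * ((h0 * h3) * (k0 * k3)) := by rw [e2]
    _ = Y * h0 * k0 * (h3 * k3 * (X'' * qh * qk)) := by rw [hY]; ring

variable {a b c e : ℕ → ℕ → ℝ}

theorem ev_zero (h : DJF a b c e) : Ev a b c e 0 := by
  refine ⟨?_, ?_, ?_, ?_, ?_, ?_, ?_, ?_⟩
  · intro u; rw [h.a0]; norm_num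
  · intro u; rw [h.b0]; norm_num
  · intro u; rw [h.c0]; norm_num
  · intro u; rw [h.e0]; norm_num
  · intro u
    have hu : (0:ℝ) < (u:ℝ) + 1 := by positivity
    rw [h.b0, h.a0, h.a0]; unfold X0e; push_cast; field_simp; ring
  · intro u
    have hu : (0:ℝ) < (u:ℝ) + 1 := by positivity
    rw [h.b0, h.a0, h.c0, h.b0]; unfold X1e; push_cast; field_simp; ring
  · intro u
    have hu : (0:ℝ) < (u:ℝ) + 1 := by positivity
    rw [h.b0, h.e0, h.c0, h.c0]; unfold X2e; push_cast; field_simp; ring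
  · intro u
    have hu : (0:ℝ) < (u:ℝ) + 1 := by positivity
    rw [h.b0, h.b0, h.c0, h.c0]; unfold Ze; push_cast; field_simp; ring

theorem od_one (h : DJF a b c e) : Od a b c e 1 := by
  have s3 : Real.sqrt 3 * Real.sqrt 3 = 3 := Real.mul_self_sqrt (by norm_num)
  refine ⟨?_, ?_, ?_, ?_, ?_, ?_, ?_⟩
  · intro u; rw [h.a1]; norm_num
  · intro u; rw [h.b1]; positivity
  · intro u; rw [h.c1]; norm_num
  · intro u; exact h.e_odd 0 u
  · intro u
    have hu : (0:ℝ) < (u:ℝ) + 1 := by positivity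
    rw [h.b1, h.a1, h.a1, s3]; unfold X0o; push_cast
    have h2 : (2 * ((u:ℝ) + 1) + 3 * 1 - 1) ≠ 0 := by nlinarith
    have h3 : (2 * ((u:ℝ) + 1) + 3 * 1 + 1) ≠ 0 := by positivity
    rw [div_mul_eq_mul_div, div_mul_eq_mul_div, eq_div_iff (mul_ne_zero h2 h3)]
    ring
  · intro u
    have hu : (0:ℝ) < (u:ℝ) + 1 := by positivity
    rw [h.b1, h.a1, h.c1, h.b1]; unfold X1o
    have : (2:ℝ) / 3 * Real.sqrt 3 * Real.sqrt 3 = 2 / 3 * (Real.sqrt 3 * Real.sqrt 3) := by ring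
    rw [this, s3]; norm_num
  · intro u
    have hu : (0:ℝ) < (u:ℝ) + 1 := by positivity
    rw [h.b1, h.b1, h.c1, h.c1, s3]; unfold Zo; push_cast; field_simp; ring

/-! ### The step relations -/

/-- even level `M = m+1` (that is `m` odd): `b`-relations. -/
theorem rel_a_even (h : DJF a b c e) {m : ℕ} (hm : Ev a b c e (m + 1)) (u : ℕ) :
    a (m + 2) u * a m (u + 2) = qae (m + 1) (u + 1) * a (m + 1) u * a (m + 1) (u + 2) := by
  have h1 := h.dj0 m u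
  have h2 := hm.x0 u
  have hm1 : ((m:ℝ) + 1) ≠ 0 := by positivity
  apply mul_left_cancel₀ hm1
  have e1 : ((m:ℝ) + 1) * (a (m + 2) u * a m (u + 2)) = ((m:ℝ) + 1) * a (m + 2) u * a m (u + 2) := by ring
  have e2 : b (m + 1) (u + 1) ^ 2 = b (m + 1) (u + 1) * b (m + 1) (u + 1) := by ring
  rw [e1, h1, e2, h2]
  unfold qae X0e
  push_cast
  have hd : ((u:ℝ) + 1 + 3 * ((m:ℝ) + 1)) ≠ 0 := by positivity
  field_simp
  ring

theorem rel_b_even (h : DJF a b c e) {m : ℕ} (hm : Ev a b c e (m + 1)) (u : ℕ) :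
    b (m + 2) u * b m (u + 2) = qbe (m + 1) (u + 1) * b (m + 1) u * b (m + 1) (u + 2) := by
  have h1 := h.dj1 m u
  have h2 := hm.x1 u
  have hm1 : ((m:ℝ) + 1) ≠ 0 := by positivity
  apply mul_left_cancel₀ hm1
  have e1 : ((m:ℝ) + 1) * (b (m + 2) u * b m (u + 2)) = ((m:ℝ) + 1) * b (m + 2) u * b m (u + 2) := by ring
  rw [e1, h1, h2]
  unfold qbe X1e
  push_cast
  have hd : (2 * ((u:ℝ) + 1) + 3 * ((m:ℝ) + 1)) ≠ 0 := by positivity
  field_simp
  ring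

theorem rel_c_even (h : DJF a b c e) {m : ℕ} (hm : Ev a b c e (m + 1)) (u : ℕ) :
    c (m + 2) u * c m (u + 2) = qce (m + 1) (u + 1) * c (m + 1) u * c (m + 1) (u + 2) := by
  have h1 := h.dj2 m u
  have h2 := hm.x2 u
  have hm1 : ((m:ℝ) + 1) ≠ 0 := by positivity
  apply mul_left_cancel₀ hm1
  have e1 : ((m:ℝ) + 1) * (c (m + 2) u * c m (u + 2)) = ((m:ℝ) + 1) * c (m + 2) u * c m (u + 2) := by ring
  rw [e1, h1, h2]
  unfold qce X2e
  push_cast
  have hd : (2 * ((u:ℝ) + 1) + 3 * ((m:ℝ) + 1)) ≠ 0 := by positivity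
  field_simp
  ring

theorem rel_a_odd (h : DJF a b c e) {m : ℕ} (hm : Od a b c e (m + 1)) (u : ℕ) :
    a (m + 2) u * a m (u + 2) = qao (m + 1) (u + 1) * a (m + 1) u * a (m + 1) (u + 2) := by
  have h1 := h.dj0 m u
  have h2 := hm.x0 u
  have hm1 : ((m:ℝ) + 1) ≠ 0 := by positivity
  apply mul_left_cancel₀ hm1
  have e1 : ((m:ℝ) + 1) * (a (m + 2) u * a m (u + 2)) = ((m:ℝ) + 1) * a (m + 2) u * a m (u + 2) := by ring
  have e2 : b (m + 1) (u + 1) ^ 2 = b (m + 1) (u + 1) * b (m + 1) (u + 1) := by ring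
  rw [e1, h1, e2, h2]
  unfold qao X0o
  push_cast
  have hd : (2 * ((u:ℝ) + 1) + 3 * ((m:ℝ) + 1) - 1) ≠ 0 := by
    have : (0:ℝ) < 2 * ((u:ℝ) + 1) + 3 * ((m:ℝ) + 1) - 1 := by nlinarith [Nat.cast_nonneg (α := ℝ) u, Nat.cast_nonneg (α := ℝ) m]
    exact this.ne'
  have hd2 : (2 * ((u:ℝ) + 1) + 3 * ((m:ℝ) + 1) + 1) ≠ 0 := by positivity
  field_simp
  ring

theorem rel_b_odd (h : DJF a b c e) {m : ℕ} (hm : Od a b c e (m + 1)) (u : ℕ) :
    b (m + 2) u * b m (u + 2) = qbo (m + 1) (u + 1) * b (m + 1) u * b (m + 1) (u + 2) := by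
  have h1 := h.dj1 m u
  have h2 := hm.x1 u
  have hm1 : ((m:ℝ) + 1) ≠ 0 := by positivity
  apply mul_left_cancel₀ hm1
  have e1 : ((m:ℝ) + 1) * (b (m + 2) u * b m (u + 2)) = ((m:ℝ) + 1) * b (m + 2) u * b m (u + 2) := by ring
  rw [e1, h1, h2]
  unfold qbo X1o
  field_simp
  ring

theorem rel_c_odd (h : DJF a b c e) {m : ℕ} (hm : Od a b c e (m + 1)) (u : ℕ) :
    c (m + 2) u * c m (u + 2) = qco (m + 1) (u + 1) * c (m + 1) u * c (m + 1) (u + 2) := by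
  have h1 := h.dj2 m u
  have h2 := hm.e0 (u + 1)
  have hm1 : ((m:ℝ) + 1) ≠ 0 := by positivity
  apply mul_left_cancel₀ hm1
  have e1 : ((m:ℝ) + 1) * (c (m + 2) u * c m (u + 2)) = ((m:ℝ) + 1) * c (m + 2) u * c m (u + 2) := by ring
  rw [e1, h1, h2]
  unfold qco
  field_simp
  ring

/-- `m` even: relation for `e` at the even level `m + 2`. -/
theorem rel_e (h : DJF a b c e) {m : ℕ} (hpar : Even m) (hm : Od a b c e (m + 1)) (u : ℕ) :
    ((m:ℝ) + 1) * e (m + 2) u * e m (u + 2) = ((u:ℝ) + 1) * c (m + 1) (u + 1) ^ 2 := by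
  have h1 := h.dj3 m u
  rw [h1, hm.e0 u]
  have : (-1 : ℝ) ^ (m + 1) = -1 := Odd.neg_one_pow (Even.add_one hpar)
  rw [this]; ring

/-! ### The induction steps -/

theorem qpos_ao {M U : ℝ} (hM : 1 ≤ M) (hU : 1 ≤ U) : 0 < qao M U := by
  have p1 : 0 < M := by linarith
  have p2 : 0 < 2 * U + 3 * M - 1 := by linarith
  have p3 : 0 < U + 3 * M - 1 := by linarith
  have p4 : 0 < U := by linarith
  unfold qao; positivity

theorem qpos_ae {M U : ℝ} (hM : 1 ≤ M) (hU : 1 ≤ U) : 0 < qae M U := by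
  have p1 : 0 < M := by linarith
  have p4 : 0 < U := by linarith
  unfold qae; positivity

theorem qpos_be {M U : ℝ} (hM : 1 ≤ M) (hU : 1 ≤ U) : 0 < qbe M U := by
  have p1 : 0 < M := by linarith
  have p4 : 0 < U := by linarith
  unfold qbe; positivity

theorem qpos_bo {M U : ℝ} (hM : 1 ≤ M) (hU : 1 ≤ U) : 0 < qbo M U := by
  have p1 : 0 < M := by linarith
  have p4 : 0 < U := by linarith
  unfold qbo; positivity

theorem qpos_ce {M U : ℝ} (hM : 1 ≤ M) (hU : 1 ≤ U) : 0 < qce M U := by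
  have p1 : 0 < M := by linarith
  have p4 : 0 < U := by linarith
  unfold qce; positivity

theorem qpos_co {M U : ℝ} (hM : 1 ≤ M) (hU : 1 ≤ U) : 0 < qco M U := by
  have p1 : 0 < M := by linarith
  have p4 : 0 < U := by linarith
  unfold qco; positivity

theorem Xpos_0e {M U : ℝ} (hM : 0 ≤ M) (hU : 1 ≤ U) : 0 < X0e M U := by
  have p4 : 0 < U := by linarith
  unfold X0e; positivity

theorem Xpos_0o {M U : ℝ} (hM : 0 ≤ M) (hU : 1 ≤ U) : 0 < X0o M U := by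
  have p2 : 0 < 2 * U + 3 * M - 1 := by linarith
  have p4 : 0 < U := by linarith
  unfold X0o; positivity

theorem Xpos_1e {M U : ℝ} (hM : 0 ≤ M) (hU : 1 ≤ U) : 0 < X1e M U := by
  have p4 : 0 < U := by linarith
  unfold X1e; positivity

theorem Xpos_1o (M U : ℝ) : 0 < X1o M U := by
  unfold X1o; positivity

theorem Xpos_2e {M U : ℝ} (hM : 0 ≤ M) (hU : 1 ≤ U) : 0 < X2e M U := by
  have p4 : 0 < U := by linarith
  unfold X2e; positivity

theorem Zpos_e {M U : ℝ} (hM : 0 ≤ M) (hU : 1 ≤ U) : 0 < Ze M U := by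
  have p4 : 0 < U := by linarith
  unfold Ze; positivity

theorem Zpos_o {M U : ℝ} (hM : 0 ≤ M) (hU : 1 ≤ U) : 0 < Zo M U := by
  have p4 : 0 < U := by linarith
  unfold Zo; positivity

theorem pos_of_rel {x y q p r : ℝ} (hy : 0 < y) (hq : 0 < q) (hp : 0 < p) (hr : 0 < r)
    (h : x * y = q * p * r) : 0 < x := by
  have : 0 < x * y := by rw [h]; positivity
  exact (pos_iff_pos_of_mul_pos this).2 hy

theorem one_le_M (m : ℕ) : (1:ℝ) ≤ (m:ℝ) + 1 := by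
  have := Nat.cast_nonneg (α := ℝ) m; linarith

theorem step_even (h : DJF a b c e) {m : ℕ} (hpar : Even m) (h0 : Ev a b c e m)
    (h1 : Od a b c e (m + 1)) : Ev a b c e (m + 2) := by
  have hM := one_le_M m
  have hM0 : (0:ℝ) ≤ (m:ℝ) := Nat.cast_nonneg m
  have pa : ∀ u, 0 < a (m + 2) u := fun u =>
    pos_of_rel (h0.pa (u + 2)) (qpos_ao hM (one_le_M u)) (h1.pa _) (h1.pa _) (rel_a_odd h h1 u)
  have pb : ∀ u, 0 < b (m + 2) u := fun u =>
    pos_of_rel (h0.pb (u + 2)) (qpos_bo hM (one_le_M u)) (h1.pb _) (h1.pb _) (rel_b_odd h h1 u)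
  have pc : ∀ u, 0 < c (m + 2) u := fun u =>
    pos_of_rel (h0.pc (u + 2)) (qpos_co hM (one_le_M u)) (h1.pc _) (h1.pc _) (rel_c_odd h h1 u)
  have pe : ∀ u, 0 < e (m + 2) u := by
    intro u
    have hr := rel_e h hpar h1 u
    have he := h0.pe (u + 2)
    have hc := h1.pc (u + 1)
    have hpos : 0 < (((m:ℝ) + 1) * e m (u + 2)) * e (m + 2) u := by
      have : (((m:ℝ) + 1) * e m (u + 2)) * e (m + 2) u = ((m:ℝ) + 1) * e (m + 2) u * e m (u + 2) := by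
        ring
      rw [this, hr]; positivity
    have h2 : 0 < ((m:ℝ) + 1) * e m (u + 2) := by positivity
    exact (pos_iff_pos_of_mul_pos hpos).1 h2
  refine ⟨pa, pb, pc, pe, ?_, ?_, ?_, ?_⟩
  · intro u
    have hU := one_le_M u
    have hU2 : (1:ℝ) ≤ (u:ℝ) + 1 + 2 := by linarith
    have rf := rel_b_odd h h1 (u + 1)
    have rh := rel_a_odd h h1 (u + 2)
    have rk := rel_a_odd h h1 u
    have hX := h1.x0 u
    have hX' := h1.x0 (u + 2)
    have hX'' := h0.x0 (u + 2)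
    push_cast at rf rh rk hX hX' hX'' ⊢
    have s1 : (u:ℝ) + 2 + 1 = (u:ℝ) + 1 + 2 := by ring
    rw [s1] at rh hX' hX''
    have hY := I0e hM hU
    have s2 : ((m:ℝ) + 1 - 1) = (m:ℝ) := by ring
    have s3 : ((m:ℝ) + 1 + 1) = (m:ℝ) + 2 := by ring
    rw [s2, s3] at hY
    exact cross_step (h0.pa _).ne' (h0.pa _).ne' (qpos_ao hM hU2).ne' (qpos_ao hM hU).ne'
      (Xpos_0e hM0 hU2).ne' rf rf rh rk hX hX' hX'' hY
  · intro u
    have hU := one_le_M u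
    have hU2 : (1:ℝ) ≤ (u:ℝ) + 1 + 2 := by linarith
    have rf := rel_c_odd h h1 (u + 1)
    have rg := rel_a_odd h h1 (u + 1)
    have rh := rel_b_odd h h1 (u + 2)
    have rk := rel_b_odd h h1 u
    have hX := h1.x1 u
    have hX' := h1.x1 (u + 2)
    have hX'' := h0.x1 (u + 2)
    push_cast at rf rg rh rk hX hX' hX'' ⊢
    have s1 : (u:ℝ) + 2 + 1 = (u:ℝ) + 1 + 2 := by ring
    rw [s1] at rh hX' hX''
    have hY := I1e hM hU
    have s2 : ((m:ℝ) + 1 - 1) = (m:ℝ) := by ring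
    have s3 : ((m:ℝ) + 1 + 1) = (m:ℝ) + 2 := by ring
    rw [s2, s3] at hY
    exact cross_step (h0.pb _).ne' (h0.pb _).ne' (qpos_bo hM hU2).ne' (qpos_bo hM hU).ne'
      (Xpos_1e hM0 hU2).ne' rf rg rh rk hX hX' hX'' hY
  · intro u
    have hU := one_le_M u
    have hU2 : (1:ℝ) ≤ (u:ℝ) + 1 + 2 := by linarith
    have re := rel_e h hpar h1 (u + 1)
    have x2 := h0.x2 (u + 2)
    have rb := rel_b_odd h h1 (u + 1)
    have rc2 := rel_c_odd h h1 (u + 2)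
    have rc0 := rel_c_odd h h1 u
    have z := h1.z u
    push_cast at re x2 rb rc2 rc0 z ⊢
    have s1 : (u:ℝ) + 2 + 1 = (u:ℝ) + 1 + 2 := by ring
    rw [s1] at x2 rc2
    have hY := I2e hM hU
    have s2 : ((m:ℝ) + 1 - 1) = (m:ℝ) := by ring
    have s3 : ((m:ℝ) + 1 + 1) = (m:ℝ) + 2 := by ring
    rw [s2, s3] at hY
    have hc4 := h0.pc (u + 4)
    have hc2 := h0.pc (u + 2)
    have hXp := Xpos_2e hM0 hU2
    have hM1 : (0:ℝ) < (m:ℝ) + 1 := by positivity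
    have hne : ((m:ℝ) + 1) * X2e (↑m) (↑u + 1 + 2) * c m (u + 4) * c m (u + 2) ≠ 0 := by positivity
    apply mul_right_cancel₀ hne
    calc e (m + 2) (u + 1) * b (m + 2) (u + 1)
          * (((m:ℝ) + 1) * X2e (↑m) (↑u + 1 + 2) * c m (u + 4) * c m (u + 2))
        = ((m:ℝ) + 1) * e (m + 2) (u + 1) * b (m + 2) (u + 1)
          * (X2e (↑m) (↑u + 1 + 2) * c m (u + 4) * c m (u + 2)) := by ring
      _ = (((m:ℝ) + 1) * e (m + 2) (u + 1) * e m (u + 3)) * (b (m + 2) (u + 1) * b m (u + 3)) := by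
          rw [← x2]; ring
      _ = ((u:ℝ) + 1 + 1) * c (m + 1) (u + 2) ^ 2
          * (qbo (↑m + 1) (↑u + 1 + 1) * (b (m + 1) (u + 1) * b (m + 1) (u + 3))) := by
          rw [re, rb]; ring
      _ = ((↑u + 1 + 1) * qbo (↑m + 1) (↑u + 1 + 1) * Zo (↑m + 1) (↑u + 1))
          * (c (m + 1) (u + 2) ^ 2 * c (m + 1) (u + 4) * c (m + 1) u) := by
          rw [z]; ring
      _ = X2e (↑m + 2) (↑u + 1) * (((m:ℝ) + 1) * X2e (↑m) (↑u + 1 + 2))
          * (qco (↑m + 1) (↑u + 1 + 2) * c (m + 1) (u + 2) * c (m + 1) (u + 4))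
          * (qco (↑m + 1) (↑u + 1) * c (m + 1) u * c (m + 1) (u + 2)) := by
          rw [hY]; ring
      _ = X2e (↑m + 2) (↑u + 1) * c (m + 2) (u + 2) * c (m + 2) u
          * (((m:ℝ) + 1) * X2e (↑m) (↑u + 1 + 2) * c m (u + 4) * c m (u + 2)) := by
          rw [← rc0, ← rc2]; ring
  · intro u
    have hU := one_le_M u
    have hU2 : (1:ℝ) ≤ (u:ℝ) + 1 + 2 := by linarith
    have hU4 : (1:ℝ) ≤ (u:ℝ) + 1 + 4 := by linarith
    have rf := rel_b_odd h h1 (u + 1)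
    have rg := rel_b_odd h h1 (u + 3)
    have rh := rel_c_odd h h1 (u + 4)
    have rk := rel_c_odd h h1 u
    have hX := h1.z u
    have hX' := h1.z (u + 2)
    have hX'' := h0.z (u + 2)
    push_cast at rf rg rh rk hX hX' hX'' ⊢
    have s1 : (u:ℝ) + 2 + 1 = (u:ℝ) + 1 + 2 := by ring
    have s4 : (u:ℝ) + 4 + 1 = (u:ℝ) + 1 + 4 := by ring
    have s5 : (u:ℝ) + 3 + 1 = (u:ℝ) + 1 + 3 := by ring
    rw [s1] at hX' hX''
    rw [s4] at rh
    rw [s5] at rg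
    have hY := Ize hM hU
    have s2 : ((m:ℝ) + 1 - 1) = (m:ℝ) := by ring
    have s3 : ((m:ℝ) + 1 + 1) = (m:ℝ) + 2 := by ring
    rw [s2, s3] at hY
    exact cross_step (h0.pc _).ne' (h0.pc _).ne' (qpos_co hM hU4).ne' (qpos_co hM hU).ne'
      (Zpos_e hM0 hU2).ne' rf rg rh rk hX hX' hX'' hY

theorem step_odd (h : DJF a b c e) {m : ℕ} (hpar : Odd m) (h0 : Od a b c e m)
    (h1 : Ev a b c e (m + 1)) : Od a b c e (m + 2) := by
  have hM := one_le_M m
  have hM0 : (0:ℝ) ≤ (m:ℝ) := Nat.cast_nonneg m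
  have pa : ∀ u, 0 < a (m + 2) u := fun u =>
    pos_of_rel (h0.pa (u + 2)) (qpos_ae hM (one_le_M u)) (h1.pa _) (h1.pa _) (rel_a_even h h1 u)
  have pb : ∀ u, 0 < b (m + 2) u := fun u =>
    pos_of_rel (h0.pb (u + 2)) (qpos_be hM (one_le_M u)) (h1.pb _) (h1.pb _) (rel_b_even h h1 u)
  have pc : ∀ u, 0 < c (m + 2) u := fun u =>
    pos_of_rel (h0.pc (u + 2)) (qpos_ce hM (one_le_M u)) (h1.pc _) (h1.pc _) (rel_c_even h h1 u)
  have pe : ∀ u, e (m + 2) u = 0 := by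
    intro u
    obtain ⟨k, hk⟩ := hpar
    have : m + 2 = 2 * (k + 1) + 1 := by omega
    rw [this]; exact h.e_odd _ u
  refine ⟨pa, pb, pc, pe, ?_, ?_, ?_⟩
  · intro u
    have hU := one_le_M u
    have hU2 : (1:ℝ) ≤ (u:ℝ) + 1 + 2 := by linarith
    have rf := rel_b_even h h1 (u + 1)
    have rh := rel_a_even h h1 (u + 2)
    have rk := rel_a_even h h1 u
    have hX := h1.x0 u
    have hX' := h1.x0 (u + 2)
    have hX'' := h0.x0 (u + 2)
    push_cast at rf rh rk hX hX' hX'' ⊢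
    have s1 : (u:ℝ) + 2 + 1 = (u:ℝ) + 1 + 2 := by ring
    rw [s1] at rh hX' hX''
    have hY := I0o hM hU
    have s2 : ((m:ℝ) + 1 - 1) = (m:ℝ) := by ring
    have s3 : ((m:ℝ) + 1 + 1) = (m:ℝ) + 2 := by ring
    rw [s2, s3] at hY
    exact cross_step (h0.pa _).ne' (h0.pa _).ne' (qpos_ae hM hU2).ne' (qpos_ae hM hU).ne'
      (Xpos_0o hM0 hU2).ne' rf rf rh rk hX hX' hX'' hY
  · intro u
    have hU := one_le_M u
    have hU2 : (1:ℝ) ≤ (u:ℝ) + 1 + 2 := by linarith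
    have rf := rel_c_even h h1 (u + 1)
    have rg := rel_a_even h h1 (u + 1)
    have rh := rel_b_even h h1 (u + 2)
    have rk := rel_b_even h h1 u
    have hX := h1.x1 u
    have hX' := h1.x1 (u + 2)
    have hX'' := h0.x1 (u + 2)
    push_cast at rf rg rh rk hX hX' hX'' ⊢
    have s1 : (u:ℝ) + 2 + 1 = (u:ℝ) + 1 + 2 := by ring
    rw [s1] at rh hX' hX''
    have hY := I1o hM hU
    have s2 : ((m:ℝ) + 1 - 1) = (m:ℝ) := by ring
    have s3 : ((m:ℝ) + 1 + 1) = (m:ℝ) + 2 := by ring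
    rw [s2, s3] at hY
    exact cross_step (h0.pb _).ne' (h0.pb _).ne' (qpos_be hM hU2).ne' (qpos_be hM hU).ne'
      (Xpos_1o _ _).ne' rf rg rh rk hX hX' hX'' hY
  · intro u
    have hU := one_le_M u
    have hU2 : (1:ℝ) ≤ (u:ℝ) + 1 + 2 := by linarith
    have hU4 : (1:ℝ) ≤ (u:ℝ) + 1 + 4 := by linarith
    have rf := rel_b_even h h1 (u + 1)
    have rg := rel_b_even h h1 (u + 3)
    have rh := rel_c_even h h1 (u + 4)
    have rk := rel_c_even h h1 u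
    have hX := h1.z u
    have hX' := h1.z (u + 2)
    have hX'' := h0.z (u + 2)
    push_cast at rf rg rh rk hX hX' hX'' ⊢
    have s1 : (u:ℝ) + 2 + 1 = (u:ℝ) + 1 + 2 := by ring
    have s4 : (u:ℝ) + 4 + 1 = (u:ℝ) + 1 + 4 := by ring
    have s5 : (u:ℝ) + 3 + 1 = (u:ℝ) + 1 + 3 := by ring
    rw [s1] at hX' hX''
    rw [s4] at rh
    rw [s5] at rg
    have hY := Izo hM hU
    have s2 : ((m:ℝ) + 1 - 1) = (m:ℝ) := by ring
    have s3 : ((m:ℝ) + 1 + 1) = (m:ℝ) + 2 := by ring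
    rw [s2, s3] at hY
    exact cross_step (h0.pc _).ne' (h0.pc _).ne' (qpos_ce hM hU4).ne' (qpos_ce hM hU).ne'
      (Zpos_o hM0 hU2).ne' rf rg rh rk hX hX' hX'' hY

theorem levels (h : DJF a b c e) (j : ℕ) : Ev a b c e (2 * j) ∧ Od a b c e (2 * j + 1) := by
  induction j with
  | zero => exact ⟨ev_zero h, od_one h⟩
  | succ j ih =>
    have h2 : Ev a b c e (2 * j + 2) := step_even h (even_two_mul j) ih.1 ih.2
    have h3 : Od a b c e (2 * j + 1 + 2) := step_odd h ⟨j, rfl⟩ ih.2 h2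
    exact ⟨h2, h3⟩

/-! ### Final statements -/

theorem r3_levels (h : DJF a b c e) (j : ℕ) : ∀ u : ℕ,
    ((u:ℝ) + 1) * c (2 * j) (u + 1) ^ 2 = ((u:ℝ) + 2 * j + 1) * (e (2 * j) u * e (2 * j) (u + 2)) := by
  induction j with
  | zero =>
    intro u
    rw [Nat.mul_zero, h.c0, h.e0, h.e0]; push_cast; ring
  | succ j ih =>
    intro u
    have h0 := (levels h j).1
    have h1 := (levels h j).2
    have r0 := rel_e h (even_two_mul j) h1 u
    have r2 := rel_e h (even_two_mul j) h1 (u + 2)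
    have rc := rel_c_odd h h1 (u + 1)
    have i2 := ih (u + 2)
    have he2 := h0.pe (u + 2)
    have he4 := h0.pe (u + 4)
    have hc3 := h0.pc (u + 3)
    show ((u:ℝ) + 1) * c (2 * j + 2) (u + 1) ^ 2
      = ((u:ℝ) + 2 * ((j + 1 : ℕ) : ℝ) + 1) * (e (2 * j + 2) u * e (2 * j + 2) (u + 2))
    have r0' : (2 * (j:ℝ) + 1) * e (2 * j + 2) u * e (2 * j) (u + 2)
        = ((u:ℝ) + 1) * c (2 * j + 1) (u + 1) ^ 2 := by
      rw [← r0]; push_cast; ring
    have r2' : (2 * (j:ℝ) + 1) * e (2 * j + 2) (u + 2) * e (2 * j) (u + 4)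
        = ((u:ℝ) + 3) * c (2 * j + 1) (u + 3) ^ 2 := by
      have : ((u:ℝ) + 3) = (((u + 2 : ℕ) : ℝ) + 1) := by push_cast; ring
      rw [this, ← r2]; push_cast; ring
    have rc' : (2 * (j:ℝ) + 1) * (c (2 * j + 2) (u + 1) * c (2 * j) (u + 3))
        = ((u:ℝ) + 2 * j + 3) * (c (2 * j + 1) (u + 1) * c (2 * j + 1) (u + 3)) := by
      rw [rc]; unfold qco; push_cast
      field_simp; ring
    have i2' : ((u:ℝ) + 3) * c (2 * j) (u + 3) ^ 2
        = ((u:ℝ) + 2 * j + 3) * (e (2 * j) (u + 2) * e (2 * j) (u + 4)) := by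
      have e1 : ((u:ℝ) + 3) = (((u + 2 : ℕ) : ℝ) + 1) := by push_cast; ring
      have e2 : ((u:ℝ) + 2 * j + 3) = (((u + 2 : ℕ) : ℝ) + 2 * j + 1) := by push_cast; ring
      rw [e1, e2]; exact i2
    have hj : (0:ℝ) < 2 * (j:ℝ) + 1 := by positivity
    have hu3 : (0:ℝ) < (u:ℝ) + 3 := by positivity
    have hne : (2 * (j:ℝ) + 1) ^ 2 * (((u:ℝ) + 3) * c (2 * j) (u + 3) ^ 2) ≠ 0 := by positivity
    apply mul_right_cancel₀ hne
    calc ((u:ℝ) + 1) * c (2 * j + 2) (u + 1) ^ 2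
          * ((2 * (j:ℝ) + 1) ^ 2 * (((u:ℝ) + 3) * c (2 * j) (u + 3) ^ 2))
        = ((u:ℝ) + 1) * ((u:ℝ) + 3)
          * ((2 * (j:ℝ) + 1) * (c (2 * j + 2) (u + 1) * c (2 * j) (u + 3))) ^ 2 := by ring
      _ = ((u:ℝ) + 2 * j + 3) ^ 2 * (((u:ℝ) + 1) * c (2 * j + 1) (u + 1) ^ 2)
          * (((u:ℝ) + 3) * c (2 * j + 1) (u + 3) ^ 2) := by rw [rc']; ring
      _ = ((u:ℝ) + 2 * j + 3) * (2 * (j:ℝ) + 1) ^ 2 * (e (2 * j + 2) u * e (2 * j + 2) (u + 2))
          * (((u:ℝ) + 2 * j + 3) * (e (2 * j) (u + 2) * e (2 * j) (u + 4))) := by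
          rw [← r0', ← r2']; ring
      _ = ((u:ℝ) + 2 * ((j + 1 : ℕ) : ℝ) + 1) * (e (2 * j + 2) u * e (2 * j + 2) (u + 2))
          * ((2 * (j:ℝ) + 1) ^ 2 * (((u:ℝ) + 3) * c (2 * j) (u + 3) ^ 2)) := by
          rw [← i2']; push_cast; ring


theorem a_pos (h : DJF a b c e) (m u : ℕ) : 0 < a m u := by
  rcases Nat.even_or_odd' m with ⟨j, rfl | rfl⟩
  · exact (levels h j).1.pa u
  · exact (levels h j).2.pa u

theorem b_pos (h : DJF a b c e) (m u : ℕ) : 0 < b m u := by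
  rcases Nat.even_or_odd' m with ⟨j, rfl | rfl⟩
  · exact (levels h j).1.pb u
  · exact (levels h j).2.pb u

theorem c_pos (h : DJF a b c e) (m u : ℕ) : 0 < c m u := by
  rcases Nat.even_or_odd' m with ⟨j, rfl | rfl⟩
  · exact (levels h j).1.pc u
  · exact (levels h j).2.pc u

/-- The recursion at even levels. -/
theorem a_even (h : DJF a b c e) (j u : ℕ) :
    a (2 * j + 3) u * a (2 * j + 1) (u + 2)
      = qae (2 * j + 2) (u + 1) * a (2 * j + 2) u * a (2 * j + 2) (u + 2) := by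
  have := rel_a_even h (m := 2 * j + 1) (levels h (j + 1)).1 u
  push_cast at this
  have s : (2 * (j:ℝ) + 1 + 1) = 2 * j + 2 := by ring
  rw [s] at this
  exact this

/-- The recursion at odd levels. -/
theorem a_odd (h : DJF a b c e) (j u : ℕ) :
    a (2 * j + 2) u * a (2 * j) (u + 2)
      = qao (2 * j + 1) (u + 1) * a (2 * j + 1) u * a (2 * j + 1) (u + 2) := by
  have := rel_a_odd h (m := 2 * j) (levels h j).2 u
  push_cast at this
  exact this

end EAV
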